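import Mathlib
import Pool.Agent.Lib.Pffaf6e.Final

/-!
# Truncated sums at `-9/16` and the form `L^2 + 27 M^2`: full affirmative answer to Q1
-/

set_option autoImplicit false

namespace Pool.Agent.Results.MP_ffaf6e_nt.FullAnswer

open Pool.Agent.Lib.Pffaf6e

/-- generalized binomial coefficient `a (a-1) ⋯ (a-k+1) / k!` -/
def gbinom (a : ℚ) (k : ℕ) : ℚ := (∏ i ∈ Finset.range k, (a - (i : ℚ))) / (k.factorial : ℚ)

/-- `S_1(p)` -/
def S1 (p : ℕ) : ℚ :=
  ∑ k ∈ Finset.range p, gbinom (-1 / 3) k * gbinom (-1 / 6) k * (-9 / 16 : ℚ) ^ k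

/-- `S_2(p)` -/
def S2 (p : ℕ) : ℚ :=
  ∑ k ∈ Finset.range p, gbinom (-2 / 3) k * gbinom (-5 / 6) k * (-9 / 16 : ℚ) ^ k

/-- `u ≡ v (mod p^2)`: the numerator of `u - v` in lowest terms is divisible by `p^2` -/
def CongSq (p : ℕ) (u v : ℚ) : Prop := ((p : ℤ) ^ 2) ∣ (u - v).num

lemma gbinom_zero (a : ℚ) : gbinom a 0 = 1 := by
  unfold gbinom; simp

lemma gbinom_succ (a : ℚ) (k : ℕ) : gbinom a (k + 1) = gbinom a k * ((a - k) / (k + 1)) := by
  unfold gbinom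
  rw [Finset.prod_range_succ, Nat.factorial_succ]
  have h1 : (k.factorial : ℚ) ≠ 0 := by exact_mod_cast (Nat.factorial_pos k).ne'
  have h2 : ((k : ℚ) + 1) ≠ 0 := by positivity
  push_cast
  field_simp

lemma term_eq (a b : ℚ) (k : ℕ) :
    gbinom (-a) k * gbinom (-b) k * (-9 / 16 : ℚ) ^ k = hg a b 1 (-9 / 16) k := by
  induction k with
  | zero => rw [gbinom_zero, gbinom_zero, hg_zero]; norm_num
  | succ k ih =>
    rw [gbinom_succ, gbinom_succ, hg_succ, ← ih, pow_succ]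
    have h2 : ((k : ℚ) + 1) ≠ 0 := by positivity
    have h3 : (1 + (k : ℚ)) ≠ 0 := by positivity
    field_simp
    ring

lemma S1_eq (p : ℕ) : S1 p = hs (1 / 3) (1 / 6) 1 (-9 / 16) p := by
  unfold S1 hs
  refine Finset.sum_congr rfl ?_
  intro k _
  rw [← term_eq]
  norm_num

lemma S2_eq (p : ℕ) : S2 p = hs (2 / 3) (5 / 6) 1 (-9 / 16) p := by
  unfold S2 hs
  refine Finset.sum_congr rfl ?_
  intro k _
  rw [← term_eq]
  norm_num

/-- **Full answer to Q1 (affirmative).** For every prime `p ≡ 1 (mod 3)` integers `L, M` with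
`4p = L^2 + 27M^2`, `L ≡ 2 (mod 3)` exist, and for all such `L, M`:
`S_1(p) ≡ S_2(p) ≡ L - p/L (mod p^2)`. -/
theorem result : ∀ p : ℕ, p.Prime → p % 3 = 1 →
    (∃ L M : ℤ, 4 * (p : ℤ) = L ^ 2 + 27 * M ^ 2 ∧ L % 3 = 2) ∧
    ∀ L M : ℤ, 4 * (p : ℤ) = L ^ 2 + 27 * M ^ 2 → L % 3 = 2 →
      CongSq p (S1 p) (S2 p) ∧
      CongSq p (S1 p) ((L : ℚ) - (p : ℚ) / (L : ℚ)) ∧
      CongSq p (S2 p) ((L : ℚ) - (p : ℚ) / (L : ℚ)) := by
  intro p hpp hp3
  haveI : Fact p.Prime := ⟨hpp⟩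
  have hodd : p % 2 = 1 := by
    rcases hpp.eq_two_or_odd with h | h
    · omega
    · exact h
  obtain ⟨h, h6⟩ : ∃ h, p = 6 * h + 1 := ⟨p / 6, by omega⟩
  have hpos : 0 < h := by
    rcases Nat.eq_zero_or_pos h with h0 | h0
    · exfalso
      rw [h0] at h6
      rw [h6] at hpp
      exact absurd hpp (by norm_num)
    · exact h0
  obtain ⟨L0, M0, hL0, hL03, hC⟩ := exists_rep p (2 * h) (by omega) (by omega) ⟨h, by ring⟩
  have hCc : (((2 * (2 * h)).choose (2 * h) : ℕ) : ZMod (p ^ 2)) = Cc p h := by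
    unfold Cc
    rw [show 2 * (2 * h) = 4 * h by ring]
  rw [hCc] at hC
  refine ⟨⟨L0, M0, hL0, hL03⟩, ?_⟩
  intro L M hL hL3
  have hLL : L = L0 := rep_unique p L M L0 M0 hL hL3 hL0 hL03
  subst hLL
  -- units
  have hCu : IsUnit (Cc p h) := by
    have e := C_fc p h h6 hpos
    have u4 := Fc_unit p (4 * h) (by omega)
    rw [← e, mul_assoc] at u4
    exact isUnit_of_mul_isUnit_left u4
  have hp2 := psq p
  have hLu : IsUnit (L : ZMod (p ^ 2)) := by
    apply isUnit_of_red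
    intro h0
    have e1 := congrArg (red p) hC
    rw [map_sub, map_mul, h0, mul_zero, map_pow, red_natCast] at e1
    have e2 : ((p : ℕ) : ZMod p) = 0 := ZMod.natCast_self p
    rw [e2, sub_zero] at e1
    have e3 := hCu.map (red p)
    have e4 : red p (Cc p h) = 0 := by
      rcases pow_eq_zero_iff (two_ne_zero) |>.mp e1 with h5
      exact h5
    rw [e4] at e3
    exact not_isUnit_zero e3
  have hsq : ((L : ZMod (p ^ 2)) - Cc p h) * ((L : ZMod (p ^ 2)) - Cc p h) = 0 := by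
    apply (hCu.mul hCu).mul_left_cancel
    rw [mul_zero]
    have e1 : (p : ZMod (p ^ 2)) = Cc p h * ((L : ZMod (p ^ 2)) - Cc p h) := by
      linear_combination hC
    calc Cc p h * Cc p h * (((L : ZMod (p ^ 2)) - Cc p h) * ((L : ZMod (p ^ 2)) - Cc p h))
        = (Cc p h * ((L : ZMod (p ^ 2)) - Cc p h)) * (Cc p h * ((L : ZMod (p ^ 2)) - Cc p h)) := by ring
      _ = 0 := by rw [← e1]; exact hp2
  have hval : (L : ZMod (p ^ 2)) - (p : ZMod (p ^ 2)) * (L : ZMod (p ^ 2))⁻¹ = Cc p h := by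
    apply hLu.mul_right_cancel
    have hinv : (L : ZMod (p ^ 2)) * (L : ZMod (p ^ 2))⁻¹ = 1 := ZMod.mul_inv_of_unit _ hLu
    linear_combination (-(p : ZMod (p ^ 2))) * hinv + hsq - hC
  have rL : Red p ((L : ℚ) - (p : ℚ) / (L : ℚ)) (Cc p h) :=
    ((Red.int p L).sub ((Red.nat p p).div (Red.int p L) hLu)).congr rfl hval
  have r1 : Red p (S1 p) (Cc p h) := (rS1 p h h6 hpos).congr (S1_eq p).symm (S1_val p h h6 hpos)
  have r2 : Red p (S2 p) (Cc p h) := (rS2 p h h6 hpos).congr (S2_eq p).symm (S2_val p h h6 hpos)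
  refine ⟨?_, ?_, ?_⟩
  · exact ((r1.sub r2).congr rfl (sub_self _)).num_dvd
  · exact ((r1.sub rL).congr rfl (sub_self _)).num_dvd
  · exact ((r2.sub rL).congr rfl (sub_self _)).num_dvd

end Pool.Agent.Results.MP_ffaf6e_nt.FullAnswer
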